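import Pool.Agent.H610.HD.Stm

/-!
# Area of a circular segment
-/

set_option autoImplicit false

open MeasureTheory Set Filter

namespace Pool.Agent.H286.HD610

open Pool.Agent.H610.HD

/-- a primitive of `2 √(r² - x²)` -/
noncomputable def prim (r x : ℝ) : ℝ := x * √(r ^ 2 - x ^ 2) - r ^ 2 * Real.arccos (x / r)

theorem prim_cont (r : ℝ) : Continuous (prim r) := by
  unfold prim
  exact (continuous_id.mul (by fun_prop)).sub
    (continuous_const.mul (Real.continuous_arccos.comp (continuous_id.div_const r)))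

theorem sqrt_aux {r x : ℝ} (hr : 0 < r) : √(1 - (x / r) ^ 2) = √(r ^ 2 - x ^ 2) / r := by
  have h : 1 - (x / r) ^ 2 = (r ^ 2 - x ^ 2) / r ^ 2 := by
    field_simp
  rw [h, Real.sqrt_div' _ (by positivity), Real.sqrt_sq hr.le]

theorem prim_deriv {r x : ℝ} (h0 : 0 ≤ x) (hr : x < r) :
    HasDerivAt (prim r) (2 * √(r ^ 2 - x ^ 2)) x := by
  have hr0 : 0 < r := h0.trans_lt hr
  have hpos : 0 < r ^ 2 - x ^ 2 := by nlinarith
  have hS : 0 < √(r ^ 2 - x ^ 2) := Real.sqrt_pos.2 hpos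
  have hSS : √(r ^ 2 - x ^ 2) * √(r ^ 2 - x ^ 2) = r ^ 2 - x ^ 2 := Real.mul_self_sqrt hpos.le
  have h1 : HasDerivAt (fun y : ℝ => r ^ 2 - y ^ 2) (-(2 * x)) x := by
    have := ((hasDerivAt_id' x).pow 2).const_sub (r ^ 2)
    refine this.congr_deriv ?_
    norm_num
  have h2 := h1.sqrt hpos.ne'
  have h3 := (hasDerivAt_id' x).mul h2
  have hx1 : x / r ≠ -1 := by
    have : 0 ≤ x / r := by positivity
    linarith
  have hx2 : x / r ≠ 1 := by
    have : x / r < 1 := (div_lt_one hr0).2 hr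
    exact this.ne
  have h4 : HasDerivAt (fun y : ℝ => y / r) (1 / r) x := (hasDerivAt_id' x).div_const r
  have h5 := (Real.hasDerivAt_arccos hx1 hx2).comp x h4
  have h6 := h3.sub (h5.const_mul (r ^ 2))
  refine h6.congr_deriv ?_
  rw [sqrt_aux hr0]
  field_simp
  nlinarith [hSS]

theorem cap_integral {r a : ℝ} (h0 : 0 ≤ a) (hr : a ≤ r) :
    ∫ x in a..r, 2 * √(r ^ 2 - x ^ 2) = prim r r - prim r a := by
  refine intervalIntegral.integral_eq_sub_of_hasDerivAt_of_le hr (prim_cont r).continuousOn ?_ ?_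
  · intro x hx
    exact prim_deriv (h0.trans hx.1.le) hx.2
  · exact Continuous.intervalIntegrable (by fun_prop) _ _

theorem prim_val {r d : ℝ} (hr : 0 < r) :
    prim r r - prim r (d / 2) = r ^ 2 * g (Real.arccos (d / (2 * r))) ∨ ¬ (0 < d ∧ d ≤ 2 * r) := by
  by_cases hd : 0 < d ∧ d ≤ 2 * r
  · left
    have e1 : d / 2 / r = d / (2 * r) := by field_simp
    have h1 : -1 ≤ d / (2 * r) := by
      have : 0 ≤ d / (2 * r) := div_nonneg hd.1.le (by positivity)
      linarith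
    have h2 : d / (2 * r) ≤ 1 := (div_le_one (by positivity)).2 hd.2
    unfold prim g
    rw [Real.sin_arccos, Real.cos_arccos h1 h2, div_self hr.ne', Real.arccos_one, sub_self,
      Real.sqrt_zero, ← e1, sqrt_aux hr]
    field_simp
    ring
  · right
    exact hd

/-- the normalised cap -/
theorem cap0 {r d : ℝ} (hr : 0 < r) (hd : 0 < d) (hd2 : d ≤ 2 * r) :
    volume {w : ℂ | ‖w‖ < r ∧ ‖w - (d : ℂ)‖ ≤ ‖w‖} ≤
      ENNReal.ofReal (r ^ 2 * g (Real.arccos (d / (2 * r)))) := by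
  have hsub : {w : ℂ | ‖w‖ < r ∧ ‖w - (d : ℂ)‖ ≤ ‖w‖} ⊆
      Complex.measurableEquivRealProd ⁻¹' (regionBetween (fun x => -√(r ^ 2 - x ^ 2))
        (fun x => √(r ^ 2 - x ^ 2)) (Icc (d / 2) r)) := by
    rintro w ⟨h1, h2⟩
    have e1 : ‖w‖ ^ 2 = w.re ^ 2 + w.im ^ 2 := by
      rw [Complex.sq_norm, Complex.normSq_apply]
      ring
    have e2 : ‖w - (d : ℂ)‖ ^ 2 = (w.re - d) ^ 2 + w.im ^ 2 := by
      rw [Complex.sq_norm, Complex.normSq_apply]
      simp only [Complex.sub_re, Complex.sub_im, Complex.ofReal_re, Complex.ofReal_im, sub_zero]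
      ring
    have h3 : ‖w - (d : ℂ)‖ ^ 2 ≤ ‖w‖ ^ 2 := pow_le_pow_left₀ (norm_nonneg _) h2 2
    have h4 : ‖w‖ ^ 2 < r ^ 2 := pow_lt_pow_left₀ h1 (norm_nonneg _) two_ne_zero
    rw [e1] at h3 h4
    rw [e2] at h3
    have hx : d / 2 ≤ w.re := by
      have : d * d ≤ d * (2 * w.re) := by nlinarith
      have := le_of_mul_le_mul_left this hd
      linarith
    have hxr : w.re ≤ r := by nlinarith [sq_nonneg w.im]
    have hy : |w.im| < √(r ^ 2 - w.re ^ 2) := by
      rw [← Real.sqrt_sq_eq_abs]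
      exact Real.sqrt_lt_sqrt (sq_nonneg _) (by linarith)
    have hy' := abs_lt.1 hy
    exact ⟨⟨hx, hxr⟩, hy'.1, hy'.2⟩
  refine (measure_mono hsub).trans ?_
  rw [Complex.volume_preserving_equiv_real_prod.measure_preimage_equiv]
  have hc : Continuous fun x : ℝ => √(r ^ 2 - x ^ 2) := by fun_prop
  have hvol : (volume : Measure (ℝ × ℝ)) = (volume : Measure ℝ).prod volume := rfl
  have hcn : Continuous fun x : ℝ => -√(r ^ 2 - x ^ 2) := hc.neg
  have hvr : ((volume : Measure ℝ).prod volume) (regionBetween (fun x => -√(r ^ 2 - x ^ 2))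
      (fun x => √(r ^ 2 - x ^ 2)) (Icc (d / 2) r)) = ENNReal.ofReal (∫ y in Icc (d / 2) r,
      ((fun x : ℝ => √(r ^ 2 - x ^ 2)) - fun x : ℝ => -√(r ^ 2 - x ^ 2)) y) :=
    volume_regionBetween_eq_integral (hcn.continuousOn.integrableOn_Icc)
    (hc.continuousOn.integrableOn_Icc) measurableSet_Icc
    (fun x _ => neg_le_self (Real.sqrt_nonneg _))
  rw [hvol, hvr]
  refine ENNReal.ofReal_le_ofReal ?_
  have hdr : d / 2 ≤ r := by linarith
  rw [integral_Icc_eq_integral_Ioc, ← intervalIntegral.integral_of_le hdr]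
  have e3 : ∫ x in (d / 2)..r, ((fun x : ℝ => √(r ^ 2 - x ^ 2)) - fun x : ℝ => -√(r ^ 2 - x ^ 2)) x =
      ∫ x in (d / 2)..r, 2 * √(r ^ 2 - x ^ 2) := by
    refine intervalIntegral.integral_congr fun x _ => ?_
    show √(r ^ 2 - x ^ 2) - -√(r ^ 2 - x ^ 2) = 2 * √(r ^ 2 - x ^ 2)
    ring
  rw [e3, cap_integral (by linarith) hdr]
  rcases prim_val (d := d) hr with h | h
  · exact h.le
  · exact absurd ⟨hd, hd2⟩ h

theorem cap : S_cap := by
  intro p q r hr hd hd2
  set d := ‖p - q‖ with hdd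
  have hd' : (d : ℂ) ≠ 0 := Complex.ofReal_ne_zero.2 hd.ne'
  set u : ℂ := (q - p) / d with hu
  have hun : ‖u‖ = 1 := by
    rw [hu, norm_div, Complex.norm_real, Real.norm_of_nonneg hd.le, norm_sub_rev, ← hdd,
      div_self hd.ne']
  have hud : u * d = q - p := by
    rw [hu]
    field_simp
  have hcirc : u ∈ Submonoid.unitSphere ℂ := mem_sphere_zero_iff_norm.2 hun
  have hmp : MeasurePreserving (fun w : ℂ => p + u * w) volume volume := by
    have h1 : MeasurePreserving (rotation ⟨u, hcirc⟩) (volume : Measure ℂ) volume :=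
      LinearIsometryEquiv.measurePreserving _
    have h2 := measurePreserving_add_left (volume : Measure ℂ) p
    exact h2.comp h1
  have hmeas : MeasurableSet {z : ℂ | ‖z - p‖ < r ∧ ‖z - q‖ ≤ ‖z - p‖} := by
    refine MeasurableSet.inter (s₁ := {z : ℂ | ‖z - p‖ < r}) (s₂ := {z : ℂ | ‖z - q‖ ≤ ‖z - p‖}) ?_ ?_
    · exact (isOpen_lt (by fun_prop) (by fun_prop)).measurableSet
    · exact (isClosed_le (by fun_prop) (by fun_prop)).measurableSet
  rw [← hmp.measure_preimage hmeas.nullMeasurableSet]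
  refine le_trans (le_of_eq ?_) (cap0 hr hd hd2)
  congr 1
  ext w
  have e1 : ‖p + u * w - p‖ = ‖w‖ := by
    rw [add_sub_cancel_left, norm_mul, hun, one_mul]
  have e2 : ‖p + u * w - q‖ = ‖w - (d : ℂ)‖ := by
    have : p + u * w - q = u * (w - d) := by
      rw [mul_sub, hud]
      ring
    rw [this, norm_mul, hun, one_mul]
  show (‖p + u * w - p‖ < r ∧ ‖p + u * w - q‖ ≤ ‖p + u * w - p‖) ↔ _
  rw [e1, e2]
  rfl

end Pool.Agent.H286.HD610
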